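import Pool.Agent.Y798.OG.Stm3
import Pool.Agent.Y674.FC.C

/-! OG-CL: the laws on the components. -/

set_option autoImplicit false
set_option linter.all false

namespace Pool.Agent.Y309.OG

open Filter Topology MeasureTheory UnitAddTorus NumberField IsDedekindDomain
  Pool.Agent.W540.BE Pool.Agent.TH553.RS Pool.Agent.TH553.ST Pool.Agent.Y798.FC Pool.Agent.Y798.OG
open Pool.Agent.Y139.ID (Good good_ev integrable_cont integrable_cont_real IsHaarOn annih ev es
  chiW wordFun idx chiW_eq_sum norm_term norm_chiW_le continuous_chiW SD im_chiW avg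
  continuous_span integral_eq_of_fourier')

variable {N : ℕ} {I : Type} [Fintype I] {P : I → Part N}

/-- the limits of the integral combinations of words -/
theorem span_tend {K : Type} [Field K] [NumberField K]
    {t : HeightOneSpectrum (𝓞 K) → UnitAddTorus (Fin N)} {U : Ultrafilter ℝ}
    (hU : (U : Filter ℝ) ≤ 𝓝[>] 0)
    (hw : ∀ (r : ℕ) (k : Fin r → ℕ), (∀ j, k j ≤ N) →
      Tendsto (cE fun v => chiW k (t v)) (U : Filter ℝ) (𝓝 (hm P (chiW k))))
    {G : UnitAddTorus (Fin N) → ℂ} (hG : G ∈ Submodule.span ℤ (wordFun N)) :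
    Continuous G ∧ Tendsto (cE fun v => G (t v)) (U : Filter ℝ) (𝓝 (hm P G)) := by
  induction hG using Submodule.span_induction with
  | mem f hf =>
    obtain ⟨r, k, hk, rfl⟩ := hf
    exact ⟨continuous_chiW k, hw r k hk⟩
  | zero =>
    refine ⟨continuous_const, ?_⟩
    have h0 : hm P (0 : UnitAddTorus (Fin N) → ℂ) = 0 := by simp [hm]
    rw [h0]
    refine tendsto_const_nhds.congr fun ε => ?_
    simp [cE]
  | add f g _ _ hf hg =>
    obtain ⟨hfc, h1⟩ := hf
    obtain ⟨hgc, h3⟩ := hg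
    refine ⟨hfc.add hgc, ?_⟩
    obtain ⟨B, -, hB⟩ := cont_bd hfc
    obtain ⟨C, -, hC'⟩ := cont_bd hgc
    rw [hm_add hfc hgc]
    refine (h1.add h3).congr' ?_
    filter_upwards [hU (good_ev (K := K))] with ε hε
    rw [← cE_add hε (fun v => hB _) (fun v => hC' _)]
    rfl
  | smul a f _ hf =>
    obtain ⟨hfc, h1⟩ := hf
    refine ⟨hfc.const_smul a, ?_⟩
    rw [hm_smul]
    refine (h1.const_mul (a : ℂ)).congr fun ε => ?_
    rw [← cE_const_mul]
    simp only [Pi.smul_apply, zsmul_eq_mul]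

theorem t : StmCl := by
  intro N I _ P halg K _ _ t ht U hU hw i f hf hinv
  have hC : StmC := Pool.Agent.Y674.FC.t
  obtain ⟨ν, hν, hlim⟩ := part_ulaw hC halg ht i U hU
  have hfin : Finite (sympW (P i).r) := (hC (P i).r).fin
  let _ : Fintype (sympW (P i).r) := Fintype.ofFinite _
  have hcard : (Nat.card (sympW (P i).r) : ℂ) ≠ 0 := by
    have : Nat.card (sympW (P i).r) ≠ 0 := Nat.card_pos.ne'
    exact_mod_cast this
  have hκ : ((P i).κ : ℂ) ≠ 0 := by
    have := (P i).κ_pos.ne'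
    exact_mod_cast this
  -- the integrals of the orbit sums
  have horb : ∀ μ : Fin (P i).r → ℤ, ∫ x, orb (sympW (P i).r) μ x ∂ν =
      ((P i).κ : ℂ)⁻¹ * dC (P i).Φ μ := by
    intro μ
    obtain ⟨G, hG, h1, h2⟩ := halg i μ
    have l1 := (span_tend hU hw hG).2
    rw [hm_orb hC h1 h2] at l1
    have l2 := hlim (fun x => ((P i).κ : ℂ) * orb (sympW (P i).r) μ x)
      (continuous_const.mul (continuous_orb hfin μ))
    have e : (fun v => G (t v)) = fun v => (ind P t i v : ℂ) *
        (((P i).κ : ℂ) * orb (sympW (P i).r) μ ((P i).ret (t v))) := by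
      funext v
      rw [ind_eq ht h2 v, h1]
    rw [e] at l1
    have h3 := tendsto_nhds_unique l1 l2
    rw [integral_const_mul] at h3
    rw [h3, ← mul_assoc, inv_mul_cancel₀ hκ, one_mul]
  -- the symmetrized measure
  have hsf : IsFiniteMeasure (smeas (sympW (P i).r) ν) := smeas_fin _ ν
  have hd := continuous_dens (P i).Φ
  have hq : Continuous fun x : UnitAddTorus (Fin (P i).r) =>
      ((P i).κ : ℂ)⁻¹ * (dens (P i).Φ x : ℂ) := by fun_prop
  have hfour : ∀ μ : Fin (P i).r → ℤ, ∫ x, mFourier μ x ∂(smeas (sympW (P i).r) ν) =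
      ∫ x, mFourier μ x * (((P i).κ : ℂ)⁻¹ * (dens (P i).Φ x : ℂ)) ∂(vol (Fin (P i).r)) := by
    intro μ
    rw [smeas_sym (sympW (P i).r) ν (f := fun x => mFourier μ x) (mFourier μ).continuous]
    have e1 : ∀ x, sym (sympW (P i).r) (fun x => mFourier μ x) x =
        orb (sympW (P i).r) μ x := fun x => (orb_eq' μ x).symm
    simp only [e1]
    rw [horb μ]
    unfold dC
    rw [← integral_const_mul]
    refine integral_congr_ae (Eventually.of_forall fun x => ?_)
    simp only
    ring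
  have h4 := integral_eq_of_fourier' hq hfour hf
  rw [smeas_sym (sympW (P i).r) ν hf] at h4
  have e2 : ∀ x, sym (sympW (P i).r) f x = (Nat.card (sympW (P i).r) : ℂ) * f x :=
    fun x => sym_inv _ hinv x
  simp only [e2] at h4
  rw [integral_const_mul] at h4
  have h5 : ∫ x, f x ∂ν = (((P i).κ : ℂ) * (Nat.card (sympW (P i).r) : ℂ))⁻¹ *
      ∫ x, f x * (dens (P i).Φ x : ℂ) ∂(vol (Fin (P i).r)) := by
    have h6 : ∫ x, f x * (((P i).κ : ℂ)⁻¹ * (dens (P i).Φ x : ℂ)) ∂(vol (Fin (P i).r)) =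
        ((P i).κ : ℂ)⁻¹ * ∫ x, f x * (dens (P i).Φ x : ℂ) ∂(vol (Fin (P i).r)) := by
      rw [← integral_const_mul]
      refine integral_congr_ae (Eventually.of_forall fun x => ?_)
      simp only
      ring
    rw [h6] at h4
    rw [mul_inv, mul_assoc, mul_comm (Nat.card (sympW (P i).r) : ℂ)⁻¹, ← mul_assoc, ← h4]
    field_simp
  rw [← h5]
  exact hlim f hf

end Pool.Agent.Y309.OG
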